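import Pool.Agent.H5.FL.Stm2
import Pool.Agent.H75.FL.OPT

set_option autoImplicit false

open MeasureTheory ProbabilityTheory Filter Topology
open scoped NNReal ENNReal

universe u

namespace H36.FL

open H5.FL

/-- two bounded variables, `Z0` measurable for `m`, with equal set integrals and equal second
moments agree almost surely. -/
theorem eq_of_moments {Ω : Type u} (m : MeasurableSpace Ω) [mΩ : MeasurableSpace Ω]
    (P : Measure Ω) [IsProbabilityMeasure P] (hm : m ≤ mΩ) (Z0 Z1 : Ω → ℝ)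
    (h0 : Measurable[m] Z0) (h1 : Measurable Z1) (K : ℝ) (hK0 : ∀ ω, |Z0 ω| ≤ K)
    (hK1 : ∀ ω, |Z1 ω| ≤ K)
    (hA : ∀ A, MeasurableSet[m] A → ∫ ω in A, Z1 ω ∂P = ∫ ω in A, Z0 ω ∂P)
    (h2 : ∫ ω, Z1 ω ^ 2 ∂P = ∫ ω, Z0 ω ^ 2 ∂P) : Z1 =ᵐ[P] Z0 := by
  have h0' : Measurable Z0 := h0.mono hm le_rfl
  have i0 : Integrable Z0 P :=
    Integrable.of_bound h0'.aestronglyMeasurable K (Eventually.of_forall hK0)
  have i1 : Integrable Z1 P :=
    Integrable.of_bound h1.aestronglyMeasurable K (Eventually.of_forall hK1)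
  have hKK : ∀ (U V : Ω → ℝ), (∀ ω, |U ω| ≤ K) → (∀ ω, |V ω| ≤ K) → Measurable U → Measurable V →
      Integrable (fun ω => U ω * V ω) P := by
    intro U V hU hV mU mV
    refine Integrable.of_bound (mU.mul mV).aestronglyMeasurable (K * K)
      (Eventually.of_forall fun ω => ?_)
    rw [Real.norm_eq_abs, abs_mul]
    exact mul_le_mul (hU ω) (hV ω) (abs_nonneg _) ((abs_nonneg _).trans (hU ω))
  have hce : Z0 =ᵐ[P] P[Z1 | m] := by
    refine ae_eq_condExp_of_forall_setIntegral_eq hm i1 (fun A _ _ => i0.integrableOn) ?_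
      h0.stronglyMeasurable.aestronglyMeasurable
    intro A hAm _
    exact (hA A hAm).symm
  have hmul : P[Z0 * Z1 | m] =ᵐ[P] Z0 * P[Z1 | m] :=
    condExp_mul_of_stronglyMeasurable_left h0.stronglyMeasurable
      (hKK Z0 Z1 hK0 hK1 h0' h1) i1
  have h01 : ∫ ω, Z0 ω * Z1 ω ∂P = ∫ ω, Z0 ω ^ 2 ∂P := by
    have e1 : ∫ ω, (P[Z0 * Z1 | m]) ω ∂P = ∫ ω, (Z0 * Z1) ω ∂P := integral_condExp hm
    have e2 : ∫ ω, (P[Z0 * Z1 | m]) ω ∂P = ∫ ω, Z0 ω ^ 2 ∂P := by
      refine integral_congr_ae ?_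
      filter_upwards [hmul, hce] with ω ha hb
      rw [ha, Pi.mul_apply, ← hb]
      ring
    have e3 : ∫ ω, (Z0 * Z1) ω ∂P = ∫ ω, Z0 ω * Z1 ω ∂P := rfl
    rw [← e3, ← e1, e2]
  have hz : ∫ ω, (Z1 ω - Z0 ω) ^ 2 ∂P = 0 := by
    have e : ∀ ω, (Z1 ω - Z0 ω) ^ 2 = Z1 ω ^ 2 - 2 * (Z0 ω * Z1 ω) + Z0 ω ^ 2 := fun ω => by ring
    have j1 : Integrable (fun ω => Z1 ω ^ 2) P := by
      simpa [sq] using hKK Z1 Z1 hK1 hK1 h1 h1
    have j0 : Integrable (fun ω => Z0 ω ^ 2) P := by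
      simpa [sq] using hKK Z0 Z0 hK0 hK0 h0' h0'
    have j01 : Integrable (fun ω => 2 * (Z0 ω * Z1 ω)) P := (hKK Z0 Z1 hK0 hK1 h0' h1).const_mul 2
    have j12 : Integrable (fun ω => Z1 ω ^ 2 - 2 * (Z0 ω * Z1 ω)) P := j1.sub j01
    simp_rw [e]
    rw [integral_add j12 j0, integral_sub j1 j01, integral_const_mul, h2, h01]
    ring
  have hz2 : (fun ω => (Z1 ω - Z0 ω) ^ 2) =ᵐ[P] 0 := by
    rwa [← integral_eq_zero_iff_of_nonneg (fun ω => sq_nonneg _)]
    have e : ∀ ω, (Z1 ω - Z0 ω) ^ 2 = Z1 ω ^ 2 - 2 * (Z0 ω * Z1 ω) + Z0 ω ^ 2 := fun ω => by ring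
    have j1 : Integrable (fun ω => Z1 ω ^ 2) P := by
      simpa [sq] using hKK Z1 Z1 hK1 hK1 h1 h1
    have j0 : Integrable (fun ω => Z0 ω ^ 2) P := by
      simpa [sq] using hKK Z0 Z0 hK0 hK0 h0' h0'
    have j01 : Integrable (fun ω => 2 * (Z0 ω * Z1 ω)) P := (hKK Z0 Z1 hK0 hK1 h0' h1).const_mul 2
    simp_rw [e]
    exact (j1.sub j01).add j0
  filter_upwards [hz2] with ω hω
  have : (Z1 ω - Z0 ω) ^ 2 = 0 := hω
  have := pow_eq_zero_iff (two_ne_zero) |>.1 this
  linarith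

theorem t_NM1 (hSTP : S_STP.{u}) (hATN : S_ATN) (hCLK : S_CLK.{u}) : S_NM1.{u} := by
  intro N μ Ω mΩ P hP π hN hF i s t hst
  obtain ⟨hc1, hc2, hc3, hc4, hc5, hc6⟩ := hCLK N μ Ω P π
  obtain ⟨d, rfl⟩ : ∃ d, t = s + d := ⟨t - s, (add_tsub_cancel_of_le hst).symm⟩
  have : Nonempty (Fin N) := ⟨⟨0, by omega⟩⟩
  -- continuity and measurability of the coordinates
  have hxc : ∀ ω, Continuous fun t => xi π t ω := by
    intro ω
    refine continuous_pi fun j => ?_
    have h1 : Continuous fun t => π.X t ω j := (continuous_apply j).comp (π.X_cont ω)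
    have h2 : Continuous fun t => clock π.J t ω j := (continuous_apply j).comp (hc2 ω)
    exact (continuous_const.mul h1).sub (continuous_const.mul h2)
  have hXm : ∀ t, Measurable (π.X t) := fun t => (π.X_adapted t).mono (π.obs.le t) le_rfl
  have hCm : ∀ t, Measurable (clock π.J t) := fun t => (hc1 t).mono (π.obs.le t) le_rfl
  have hxm : ∀ t k, Measurable fun ω => xi π t ω k := by
    intro t k
    exact (measurable_const.mul ((measurable_pi_apply k).comp (hXm t))).sub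
      (measurable_const.mul ((measurable_pi_apply k).comp (hCm t)))
  let m : ℝ≥0 → Ω → Fin 1 → ℝ := fun r ω _ => xi π (s + r) ω i - ⨆ k, xi π (s + r) ω k
  have hmc : ∀ ω, Continuous fun r => m r ω := by
    intro ω
    refine continuous_pi fun _ => ?_
    have hs : Continuous fun r : ℝ≥0 => s + r := continuous_const.add continuous_id
    have h1 : Continuous fun r => xi π (s + r) ω i := (continuous_apply i).comp ((hxc ω).comp hs)
    have h2 : Continuous fun r => ⨆ k, xi π (s + r) ω k := by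
      have h3 : (fun r => ⨆ k, xi π (s + r) ω k) =
          fun r => Finset.univ.sup' Finset.univ_nonempty (fun k => xi π (s + r) ω k) := by
        funext r
        exact (Finset.sup'_univ_eq_ciSup _).symm
      rw [h3]
      refine Continuous.finset_sup'_apply _ fun k _ => ?_
      exact (continuous_apply k).comp ((hxc ω).comp hs)
    exact h1.sub h2
  have hmm : ∀ r, Measurable (m r) := by
    intro r
    refine measurable_pi_lambda _ fun _ => ?_
    exact (hxm (s + r) i).sub (Measurable.iSup fun k => hxm (s + r) k)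
  let σ : Ω → ℝ≥0 := fun ω => (min (hT 0 m ω) (d : ℝ≥0∞)).toNNReal
  have hσcoe : ∀ ω, ((σ ω : ℝ≥0) : ℝ≥0∞) = min (hT 0 m ω) d := by
    intro ω
    exact ENNReal.coe_toNNReal (ne_of_lt (lt_of_le_of_lt (min_le_right _ _) ENNReal.coe_lt_top))
  have hσd : ∀ ω, σ ω ≤ d := by
    intro ω
    have : ((σ ω : ℝ≥0) : ℝ≥0∞) ≤ d := by rw [hσcoe]; exact min_le_right _ _
    exact_mod_cast this
  have hσm : ∀ r : ℝ≥0, r < d → MeasurableSet {ω | r < σ ω} := by
    intro r hr
    have h1 : {ω | r < σ ω} = {ω | (r : ℝ≥0∞) < hT 0 m ω} := by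
      ext ω
      simp only [Set.mem_ofPred_eq]
      rw [← ENNReal.coe_lt_coe, hσcoe, lt_min_iff]
      exact ⟨fun h => h.1, fun h => ⟨h, by exact_mod_cast hr⟩⟩
    rw [h1]
    exact H75.FL.opt_meas (⊤ : Filtration ℝ≥0 mΩ) 0 m hmc hmm r
  have hab : ∀ x : ℝ, |Real.arctan x| ≤ Real.pi / 2 := fun x =>
    abs_le.2 ⟨(Real.neg_pi_div_two_lt_arctan x).le, (Real.arctan_lt_pi_div_two x).le⟩
  let Y : ℝ≥0 → Ω → ℝ := fun r ω => Real.arctan (π.X (s + r) ω i)
  have hYc : ∀ ω, Continuous fun r => Y r ω := by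
    intro ω
    exact Real.continuous_arctan.comp ((continuous_apply i).comp
      ((π.X_cont ω).comp (continuous_const.add continuous_id)))
  have hYm : ∀ r, Measurable (Y r) := fun r =>
    Real.continuous_arctan.measurable.comp ((measurable_pi_apply i).comp (hXm _))
  obtain ⟨hZ1m, -⟩ := H75.FL.opt_limit P d σ hσd hσm Y hYc hYm (Real.pi / 2)
    (fun _ _ _ => hab _)
  have hkey : (fun ω => Y (σ ω) ω) =ᵐ[P] fun ω => Real.arctan (π.X s ω i) := by
    refine eq_of_moments (π.full s) P (π.full.le s) (fun ω => Real.arctan (π.X s ω i))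
      (fun ω => Y (σ ω) ω) ?_ hZ1m (Real.pi / 2) (fun _ => hab _) (fun _ => hab _) ?_ ?_
    · have h1 : Measurable[π.full s] (π.X s) := (π.X_adapted s).mono (π.obs_le s) le_rfl
      exact Real.continuous_arctan.measurable.comp ((measurable_pi_apply i).comp h1)
    · intro A hA
      obtain ⟨hF1, hF2⟩ := hATN 1 (Or.inl rfl)
      have h := hSTP N μ Ω P π hN hF i (fun x => Real.arctan x ^ 1) hF1 hF2 s d A hA
      simpa only [pow_one] using h
    · obtain ⟨hF1, hF2⟩ := hATN 2 (Or.inr rfl)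
      have h := hSTP N μ Ω P π hN hF i (fun x => Real.arctan x ^ 2) hF1 hF2 s d Set.univ
        MeasurableSet.univ
      simpa only [Measure.restrict_univ] using h
  filter_upwards [hkey] with ω hω hlt
  have h1 : ¬ hT 0 m ω ≤ (d : ℝ≥0∞) := by
    rw [H75.FL.opt_hit_iff 0 m ω (hmc ω) d]
    rintro ⟨_, r, hr, h⟩
    obtain ⟨k, hk⟩ := hlt (s + r) le_self_add (by gcongr)
    have h2 : xi π (s + r) ω k ≤ ⨆ k, xi π (s + r) ω k := le_ciSup (Set.finite_range _).bddAbove k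
    have h3 : 0 ≤ xi π (s + r) ω i - ⨆ k, xi π (s + r) ω k := h
    linarith
  have h2 : σ ω = d := by
    have h3 : ((σ ω : ℝ≥0) : ℝ≥0∞) = d := by
      rw [hσcoe, min_eq_right (not_le.1 h1).le]
    exact_mod_cast h3
  have h4 : Real.arctan (π.X (s + σ ω) ω i) = Real.arctan (π.X s ω i) := hω
  rw [h2] at h4
  exact Real.arctan_injective h4

end H36.FL
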