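import Pool.Agent.H5.FL.Stm2

set_option autoImplicit false

open MeasureTheory ProbabilityTheory Filter Topology
open scoped NNReal ENNReal

universe u

namespace H36.FL

open H5.FL

theorem sm_le_iff {N : ℕ} (ξ : Fin N → ℝ) (i k : Fin N) : sm ξ k ≤ sm ξ i ↔ ξ k ≤ ξ i := by
  have hpos : 0 < ∑ k, Real.exp (ξ k) :=
    Finset.sum_pos (fun k _ => Real.exp_pos _) ⟨i, Finset.mem_univ i⟩
  unfold sm
  rw [div_le_div_iff_of_pos_right hpos, Real.exp_le_exp]

theorem t_NM2 (hNM1 : S_NM1.{u}) (hCLK : S_CLK.{u}) : S_NM2.{u} := by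
  intro N μ Ω mΩ P hP π hN hF
  obtain ⟨hc1, hc2, hc3, hc4, hc5, hc6⟩ := hCLK N μ Ω P π
  obtain ⟨D, hDc, hDd⟩ := TopologicalSpace.exists_countable_dense ℝ≥0
  have hall : ∀ᵐ ω ∂P, ∀ i : Fin N, ∀ p ∈ D, ∀ q ∈ D, p ≤ q →
      (∀ r, p ≤ r → r ≤ q → ∃ k, xi π r ω i < xi π r ω k) → π.X q ω i = π.X p ω i := by
    rw [ae_all_iff]
    intro i
    rw [ae_ball_iff hDc]
    intro p _
    rw [ae_ball_iff hDc]
    intro q _
    by_cases hpq : p ≤ q
    · filter_upwards [hNM1 N μ Ω P π hN hF i p q hpq] with ω hω _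
      exact hω
    · exact Eventually.of_forall fun ω h => absurd h hpq
  filter_upwards [hall, hF] with ω hω hFω i s t hst hlt
  -- the observed box is a leader
  have hJ : ∀ r, s ≤ r → r ≤ t → π.J r ω ≠ i := by
    intro r h1 h2 hJi
    obtain ⟨k, hk⟩ := hlt r h1 h2
    have h3 := hFω r k
    rw [hc6 r ω, hJi, sm_le_iff] at h3
    exact absurd h3 (not_le.2 hk)
  -- the clock does not run
  have hclk : clock π.J t ω i = clock π.J s ω i := by
    have hJω : Measurable fun s : ℝ => π.J s.toNNReal ω :=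
      hc4.comp (measurable_real_toNNReal.prodMk measurable_const)
    have hFm : Measurable fun s : ℝ => if π.J s.toNNReal ω = i then (1 : ℝ) else 0 :=
      Measurable.ite (hJω (measurableSet_singleton i)) measurable_const measurable_const
    have hint : ∀ a b : ℝ, IntervalIntegrable
        (fun s : ℝ => if π.J s.toNNReal ω = i then (1 : ℝ) else 0) volume a b := by
      intro a b
      refine (intervalIntegrable_const (c := (1 : ℝ))).mono_fun hFm.aestronglyMeasurable ?_
      refine Filter.Eventually.of_forall (fun s => ?_)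
      simp only
      split_ifs <;> simp
    have h1 := intervalIntegral.integral_interval_sub_left (hint 0 t) (hint 0 s)
    have h2 : (∫ r in (s : ℝ)..t, if π.J r.toNNReal ω = i then (1 : ℝ) else 0) = 0 := by
      have h3 : (∫ r in (s : ℝ)..t, if π.J r.toNNReal ω = i then (1 : ℝ) else 0)
          = ∫ r in (s : ℝ)..t, (0 : ℝ) := by
        refine intervalIntegral.integral_congr fun r hr => ?_
        rw [Set.uIcc_of_le (by exact_mod_cast hst)] at hr
        have h4 : s ≤ r.toNNReal := NNReal.le_toNNReal_of_coe_le hr.1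
        have h5 : r.toNNReal ≤ t := by
          rw [Real.toNNReal_le_iff_le_coe]; exact hr.2
        exact if_neg (hJ _ h4 h5)
      rw [h3]; simp
    rw [h2] at h1
    unfold clock
    linarith
  -- the signal does not move
  have hX : π.X t ω i = π.X s ω i := by
    rcases eq_or_lt_of_le hst with rfl | hlt'
    · rfl
    have hXc : Continuous fun t => π.X t ω i := (continuous_apply i).comp (π.X_cont ω)
    obtain ⟨p0, hp0, hp0D⟩ := hDd.inter_open_nonempty (Set.Ioo s t) isOpen_Ioo
      (Set.nonempty_Ioo.2 hlt')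
    have hcl : IsClosed {r | π.X r ω i = π.X p0 ω i} := isClosed_eq hXc continuous_const
    have hsub : Set.Ioo s t ∩ D ⊆ {r | π.X r ω i = π.X p0 ω i} := by
      rintro q ⟨hq, hqD⟩
      rcases le_total p0 q with h | h
      · exact hω i p0 hp0D q hqD h fun r h1 h2 =>
          hlt r (hp0.1.le.trans h1) (h2.trans hq.2.le)
      · exact (hω i q hqD p0 hp0D h fun r h1 h2 =>
          hlt r (hq.1.le.trans h1) (h2.trans hp0.2.le)).symm
    have h1 : Set.Ioo s t ⊆ {r | π.X r ω i = π.X p0 ω i} :=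
      (hDd.open_subset_closure_inter isOpen_Ioo).trans (closure_minimal hsub hcl)
    have h2 : Set.Icc s t ⊆ {r | π.X r ω i = π.X p0 ω i} := by
      rw [← closure_Ioo hlt'.ne]
      exact closure_minimal h1 hcl
    have h3 : π.X t ω i = π.X p0 ω i := h2 ⟨hst, le_rfl⟩
    have h4 : π.X s ω i = π.X p0 ω i := h2 ⟨le_rfl, hst⟩
    rw [h3, h4]
  show μ * π.X t ω i - (1 / 2) * μ ^ 2 * clock π.J t ω i
    = μ * π.X s ω i - (1 / 2) * μ ^ 2 * clock π.J s ω i
  rw [hX, hclk]

end H36.FL
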