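import Pool.Agent.H5.FL.Stm

set_option autoImplicit false

open MeasureTheory Filter Topology
open scoped NNReal ENNReal

namespace H36.FL

open H5.FL

theorem rr_eq (M x : ℝ) (hM : 2 ≤ M) (hx : x < 1) :
    rr M x = (2 - M) / (1 - x) ^ 2 + (2 * (M - 1) - M / (M - 1)) / (1 - x)
      + (2 * (M / (M - 1)) - M + 1) - M / (M - 1) * (1 - x) := by
  have h1 : (1 - x) ≠ 0 := by linarith
  have h2 : (M - 1) ≠ 0 := by linarith
  unfold rr
  field_simp
  ring

theorem rr_deriv (M x : ℝ) (hM : 2 ≤ M) (hx : x < 1) :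
    HasDerivAt (rr M) (2 * (2 - M) / (1 - x) ^ 3 + (2 * (M - 1) - M / (M - 1)) / (1 - x) ^ 2
      + M / (M - 1)) x := by
  have h1 : (1 - x) ≠ 0 := by linarith
  have hy : HasDerivAt (fun x : ℝ => 1 - x) (-1) x := by
    simpa using (hasDerivAt_id x).const_sub 1
  have hA : HasDerivAt (fun x : ℝ => (2 - M) / (1 - x) ^ 2 + (2 * (M - 1) - M / (M - 1)) / (1 - x)
      + (2 * (M / (M - 1)) - M + 1) - M / (M - 1) * (1 - x))
      (2 * (2 - M) / (1 - x) ^ 3 + (2 * (M - 1) - M / (M - 1)) / (1 - x) ^ 2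
      + M / (M - 1)) x := by
    have e1 := ((hasDerivAt_const x (2 - M)).div (hy.pow 2) (pow_ne_zero 2 h1))
    have e2 := ((hasDerivAt_const x (2 * (M - 1) - M / (M - 1))).div hy h1)
    have e3 := (((e1.add e2).add_const (2 * (M / (M - 1)) - M + 1)).sub (hy.const_mul (M / (M - 1))))
    refine HasDerivAt.congr_deriv e3 ?_
    show (0 * (1 - x) ^ 2 - (2 - M) * (((2 : ℕ) : ℝ) * (1 - x) ^ (2 - 1) * -1)) / ((1 - x) ^ 2) ^ 2 +
        (0 * (1 - x) - (2 * (M - 1) - M / (M - 1)) * -1) / (1 - x) ^ 2 -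
      M / (M - 1) * -1 = _
    field_simp
    ring
  refine hA.congr_of_eventuallyEq ?_
  filter_upwards [Iio_mem_nhds hx] with z hz
  exact rr_eq M z hM hz

theorem rr_deriv2 (M x : ℝ) (hx : x < 1) :
    HasDerivAt (fun x : ℝ => 2 * (2 - M) / (1 - x) ^ 3
      + (2 * (M - 1) - M / (M - 1)) / (1 - x) ^ 2 + M / (M - 1))
      (6 * (2 - M) / (1 - x) ^ 4 + 2 * (2 * (M - 1) - M / (M - 1)) / (1 - x) ^ 3) x := by
  have h1 : (1 - x) ≠ 0 := by linarith
  have hy : HasDerivAt (fun x : ℝ => 1 - x) (-1) x := by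
    simpa using (hasDerivAt_id x).const_sub 1
  have e1 := ((hasDerivAt_const x (2 * (2 - M))).div (hy.pow 3) (pow_ne_zero 3 h1))
  have e2 := ((hasDerivAt_const x (2 * (M - 1) - M / (M - 1))).div (hy.pow 2) (pow_ne_zero 2 h1))
  have e3 := ((e1.add e2).add_const (M / (M - 1)))
  refine HasDerivAt.congr_deriv e3 ?_
  show (0 * (1 - x) ^ 3 - (2 * (2 - M)) * (((3 : ℕ) : ℝ) * (1 - x) ^ (3 - 1) * -1)) / ((1 - x) ^ 3) ^ 2 +
      (0 * (1 - x) ^ 2 - (2 * (M - 1) - M / (M - 1)) * (((2 : ℕ) : ℝ) * (1 - x) ^ (2 - 1) * -1))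
        / ((1 - x) ^ 2) ^ 2 = _
  field_simp
  ring

theorem t_RCC : S_RCC := by
  intro M hM
  refine concaveOn_of_hasDerivWithinAt2_nonpos (convex_Ico 0 1)
    (f' := fun x : ℝ => 2 * (2 - M) / (1 - x) ^ 3
      + (2 * (M - 1) - M / (M - 1)) / (1 - x) ^ 2 + M / (M - 1))
    (f'' := fun x : ℝ => 6 * (2 - M) / (1 - x) ^ 4
      + 2 * (2 * (M - 1) - M / (M - 1)) / (1 - x) ^ 3) ?_ ?_ ?_ ?_
  · intro x hx
    exact (rr_deriv M x hM hx.2).continuousAt.continuousWithinAt
  · intro x hx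
    rw [interior_Ico] at hx
    exact (rr_deriv M x hM hx.2).hasDerivWithinAt
  · intro x hx
    rw [interior_Ico] at hx
    exact (rr_deriv2 M x hx.2).hasDerivWithinAt
  · intro x hx
    rw [interior_Ico] at hx
    have h1 : 0 < 1 - x := by linarith [hx.2]
    have h1' : 1 - x ≤ 1 := by linarith [hx.1]
    have h2 : 0 < M - 1 := by linarith
    have h3 : 6 * (2 - M) / (1 - x) ^ 4 + 2 * (2 * (M - 1) - M / (M - 1)) / (1 - x) ^ 3
        = (6 * (2 - M) * (M - 1) + 2 * (2 * (M - 1) ^ 2 - M) * (1 - x))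
          / ((M - 1) * (1 - x) ^ 4) := by
      field_simp
    show 6 * (2 - M) / (1 - x) ^ 4 + 2 * (2 * (M - 1) - M / (M - 1)) / (1 - x) ^ 3 ≤ 0
    rw [h3]
    apply div_nonpos_of_nonpos_of_nonneg
    · have h4 : 0 ≤ 2 * (M - 1) ^ 2 - M := by nlinarith
      have h5 : 2 * (2 * (M - 1) ^ 2 - M) * (1 - x) ≤ 2 * (2 * (M - 1) ^ 2 - M) := by
        nlinarith
      nlinarith [sq_nonneg (M - 2)]
    · positivity

theorem t_PMN : S_PMN := by
  intro M hM
  have h2 : 0 < M - 1 := by linarith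
  have key : ∀ x, x < 1 → rr M x - (1 + M / (M - 1) * x)
      = x * (M - 2) * (1 - M * x) / ((M - 1) * (1 - x) ^ 2) := by
    intro x hx
    have h1 : (1 - x) ≠ 0 := by linarith
    have h2' : (M - 1) ≠ 0 := h2.ne'
    unfold rr
    field_simp
    ring
  constructor
  · intro x hx0 hx1
    have hM0 : 0 < M := by linarith
    have hMx : M * x ≤ 1 := by
      rw [le_div_iff₀ hM0] at hx1; linarith
    have hxlt : x < 1 := by nlinarith
    have h := key x hxlt
    have h3 : 0 ≤ x * (M - 2) * (1 - M * x) / ((M - 1) * (1 - x) ^ 2) := by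
      apply div_nonneg
      · exact mul_nonneg (mul_nonneg hx0 (by linarith)) (by linarith)
      · positivity
    unfold psi
    apply min_eq_left
    linarith
  · intro x hx1 hxlt
    have hM0 : 0 < M := by linarith
    have hMx : 1 ≤ M * x := by
      rw [div_le_iff₀ hM0] at hx1; linarith
    have hx0 : 0 < x := by
      by_contra hneg
      push Not at hneg
      nlinarith
    have h := key x hxlt
    have h3 : x * (M - 2) * (1 - M * x) / ((M - 1) * (1 - x) ^ 2) ≤ 0 := by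
      apply div_nonpos_of_nonpos_of_nonneg
      · exact mul_nonpos_of_nonneg_of_nonpos (mul_nonneg hx0.le (by linarith)) (by linarith)
      · positivity
    unfold psi
    apply min_eq_right
    linarith

theorem t_PTC : S_PTC := by
  intro M q hM hq
  have hc : Continuous (psiT M q) := by
    have h1 : ∀ x, (1 - min x q) ≠ 0 := by
      intro x
      have : min x q ≤ q := min_le_right _ _
      linarith
    unfold psiT psi rr
    refine Continuous.min ?_ ?_
    · fun_prop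
    · refine Continuous.div (by fun_prop) (by fun_prop) fun x => pow_ne_zero 2 (h1 x)
  refine ⟨hc, ?_⟩
  obtain ⟨C, hC⟩ := (isCompact_Icc (a := (0 : ℝ)) (b := 1)).exists_bound_of_continuousOn
    hc.continuousOn
  exact ⟨C, fun x h0 h1 => hC x ⟨h0, h1⟩⟩

theorem t_PHD (hPTC : S_PTC) : S_PHD := by
  intro M q hM hq x hx
  have hM0 : (0 : ℝ) < 1 / M := by positivity
  have hc := (hPTC M q hM hq).1
  have hcont : ContinuousOn (fun u => psiT M q u / u ^ 2) (Set.Ioi 0) := by
    refine ContinuousOn.div hc.continuousOn (by fun_prop) fun u hu => pow_ne_zero 2 (ne_of_gt hu)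
  have hsub : ∀ y, 0 < y → Set.uIcc (1 / M) y ⊆ Set.Ioi 0 := by
    intro y hy u hu
    have : min (1 / M) y ≤ u := hu.1
    exact lt_of_lt_of_le (lt_min hM0 hy) this
  have h1 : ∀ y, 0 < y → HasDerivAt (phi1 M q) (psiT M q y / y ^ 2) y := by
    intro y hy
    unfold phi1
    refine intervalIntegral.integral_hasDerivAt_right ?_ ?_ ?_
    · exact (hcont.mono (hsub y hy)).intervalIntegrable
    · exact hcont.stronglyMeasurableAtFilter isOpen_Ioi y hy
    · exact hcont.continuousAt (Ioi_mem_nhds hy)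
  have hcont1 : ContinuousOn (phi1 M q) (Set.Ioi 0) := fun y hy =>
    (h1 y hy).continuousAt.continuousWithinAt
  refine ⟨?_, h1 x hx⟩
  unfold phi
  refine intervalIntegral.integral_hasDerivAt_right ?_ ?_ ?_
  · exact (hcont1.mono (hsub x hx)).intervalIntegrable
  · exact hcont1.stronglyMeasurableAtFilter isOpen_Ioi x hx
  · exact hcont1.continuousAt (Ioi_mem_nhds hx)

end H36.FL
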